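import Pool.Agent.EWG.StmtsB

/-!
Row BLT of squad EWG (MP_b66c3b_nt).
-/

set_option autoImplicit false

namespace Pool.Agent.EWG.H29

open Finset Pool.Agent.PrimeFourier Pool.Agent.EWG
open scoped BigOperators

theorem norm_e1 (x : ℝ) : ‖e x‖ = 1 := by
  unfold e
  have : (2 * Real.pi * Complex.I * x : ℂ) = ((2 * Real.pi * x : ℝ) : ℂ) * Complex.I := by
    push_cast; ring
  rw [this, Complex.norm_exp_ofReal_mul_I]

theorem Vr_nonneg (s : Finset ℕ) (a : ℕ → ℂ) (l : ℕ) : 0 ≤ Vr s a l :=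
  Finset.sum_nonneg (fun _ _ => by positivity)

theorem cls_cut (C : ℕ) (a : ℕ → ℂ) (l h : ℕ) :
    cls (Ioc C (2 * C)) a l h = cls (Ioc 0 (2 * C)) (fun c => if C < c then a c else 0) l h := by
  unfold cls
  rw [← Finset.sum_filter]
  refine Finset.sum_congr ?_ (fun _ _ => rfl)
  ext n
  simp only [Finset.mem_filter, Finset.mem_Ioc]
  constructor
  · rintro ⟨⟨h1, h2⟩, h3⟩
    exact ⟨⟨⟨by omega, h2⟩, h3⟩, h1⟩
  · rintro ⟨⟨⟨_, h2⟩, h3⟩, h1⟩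
    exact ⟨⟨h1, h2⟩, h3⟩

theorem Vr_cut (C : ℕ) (a : ℕ → ℂ) (l : ℕ) :
    Vr (Ioc C (2 * C)) a l = Vr (Ioc 0 (2 * C)) (fun c => if C < c then a c else 0) l := by
  unfold Vr mn
  simp only [cls_cut]

/-- **BLT.** -/
theorem blt (hlsv : LsvStmt) (hbil : BilStmt) (hsep : SepStmt) : BltStmt := by
  intro R C K P t α β hR hC hP
  obtain ⟨g, w, w0, gw, wsum, gsum⟩ := hsep (2 * C + 1) (by omega)
  have hRr : (1 : ℝ) ≤ R := by exact_mod_cast hR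
  set L : ℝ := 16 * (R : ℝ) ^ 2 * (1 + 2 * Real.log (2 * R)) with hL
  have hlog : 0 ≤ Real.log (2 * R) := Real.log_nonneg (by linarith)
  have hL0 : 0 ≤ L := by positivity
  have hC0 : (0 : ℝ) ≤ C := by positivity
  have hK0 : (0 : ℝ) ≤ K := by positivity
  -- the separated functions
  obtain ⟨a, ha⟩ : ∃ a : ℕ → ℕ → ℂ, ∀ h c, a h c = α c * e ((h : ℝ) * c / ((2 * C + 1 : ℕ) : ℝ)) :=
    ⟨_, fun _ _ => rfl⟩
  obtain ⟨b, hb⟩ : ∃ b : ℕ → ℕ → ℂ, ∀ h k, b h k = β k * g (t k) h := ⟨_, fun _ _ => rfl⟩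
  have key : ∀ l : ℕ, (∑ c ∈ Ioc C (2 * C), ∑ k ∈ Ioc 0 K,
      (if c ≤ t k then α c * β k * ((D l (c * k) : ℝ) : ℂ) else 0)) =
      ∑ h ∈ range (2 * C + 1), ∑ c ∈ Ioc C (2 * C), ∑ k ∈ Ioc 0 K,
        a h c * b h k * ((D l (c * k) : ℝ) : ℂ) := by
    intro l
    have h0 : ∀ c ∈ Ioc C (2 * C), ∀ k ∈ Ioc 0 K,
        (if c ≤ t k then α c * β k * ((D l (c * k) : ℝ) : ℂ) else 0) =
          ∑ h ∈ range (2 * C + 1), a h c * b h k * ((D l (c * k) : ℝ) : ℂ) := by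
      intro c hc k _
      have h1 := gsum (t k) c (by have := (Finset.mem_Ioc.1 hc).2; omega)
      have h2 : (if c ≤ t k then α c * β k * ((D l (c * k) : ℝ) : ℂ) else 0) =
          (α c * β k * ((D l (c * k) : ℝ) : ℂ)) * (if c ≤ t k then (1 : ℂ) else 0) := by
        split_ifs <;> simp
      rw [h2, h1, Finset.mul_sum]
      refine Finset.sum_congr rfl (fun h _ => ?_)
      rw [ha, hb]; ring
    rw [Finset.sum_congr rfl (fun c hc => Finset.sum_congr rfl (fun k hk => h0 c hc k hk)),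
      Finset.sum_congr rfl (fun c _ => Finset.sum_comm), Finset.sum_comm]
  -- one `l`
  have one : ∀ l ∈ P, ‖∑ c ∈ Ioc C (2 * C), ∑ k ∈ Ioc 0 K,
      (if c ≤ t k then α c * β k * ((D l (c * k) : ℝ) : ℂ) else 0)‖ ≤
      ∑ h ∈ range (2 * C + 1), √(Vr (Ioc C (2 * C)) (a h) l) * √(Vr (Ioc 0 K) (b h) l) := by
    intro l hl
    rw [key l]
    refine (norm_sum_le _ _).trans (Finset.sum_le_sum (fun h _ => ?_))
    exact hbil (Ioc C (2 * C)) (Ioc 0 K) (a h) (b h) l (hP l hl).1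
  -- one `h`
  have two : ∀ h ∈ range (2 * C + 1),
      ∑ l ∈ P, √(Vr (Ioc C (2 * C)) (a h) l) * √(Vr (Ioc 0 K) (b h) l) ≤
      w h * ((1 / (R : ℝ)) * √((8 * C + L) * (4 * K + L))
        * √(∑ c ∈ Ioc C (2 * C), ‖α c‖ ^ 2) * √(∑ k ∈ Ioc 0 K, ‖β k‖ ^ 2)) := by
    intro h _
    have c1 := Real.sum_sqrt_mul_sqrt_le P (f := fun l => Vr (Ioc C (2 * C)) (a h) l)
      (g := fun l => Vr (Ioc 0 K) (b h) l) (fun l => Vr_nonneg _ _ _) (fun l => Vr_nonneg _ _ _)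
    refine c1.trans ?_
    have v1 : ∑ l ∈ P, Vr (Ioc C (2 * C)) (a h) l ≤
        (1 / (R : ℝ)) * (8 * C + L) * ∑ c ∈ Ioc C (2 * C), ‖α c‖ ^ 2 := by
      have h1 := hlsv R (2 * C) P (fun c => if C < c then a h c else 0) hR hP
      have h2 : ∑ n ∈ Ioc 0 (2 * C), ‖(if C < n then a h n else 0 : ℂ)‖ ^ 2 =
          ∑ c ∈ Ioc C (2 * C), ‖α c‖ ^ 2 := by
        have h3 : ∀ n ∈ Ioc 0 (2 * C), ‖(if C < n then a h n else 0 : ℂ)‖ ^ 2 =
            if C < n then ‖α n‖ ^ 2 else 0 := by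
          intro n _
          split_ifs
          · rw [ha, norm_mul, norm_e1, mul_one]
          · simp
        rw [Finset.sum_congr rfl h3, ← Finset.sum_filter]
        refine Finset.sum_congr ?_ (fun _ _ => rfl)
        ext n
        simp only [Finset.mem_filter, Finset.mem_Ioc]
        omega
      rw [h2] at h1
      have h4 : ∑ l ∈ P, Vr (Ioc C (2 * C)) (a h) l =
          ∑ l ∈ P, Vr (Ioc 0 (2 * C)) (fun c => if C < c then a h c else 0) l :=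
        Finset.sum_congr rfl (fun l _ => Vr_cut C (a h) l)
      rw [h4]
      refine h1.trans (le_of_eq ?_)
      push_cast
      ring
    have v2 : ∑ l ∈ P, Vr (Ioc 0 K) (b h) l ≤
        (1 / (R : ℝ)) * (4 * K + L) * ((w h) ^ 2 * ∑ k ∈ Ioc 0 K, ‖β k‖ ^ 2) := by
      have h1 := hlsv R K P (b h) hR hP
      refine h1.trans ?_
      apply mul_le_mul_of_nonneg_left _ (by positivity)
      rw [Finset.mul_sum]
      refine Finset.sum_le_sum (fun k _ => ?_)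
      rw [hb, norm_mul, mul_pow, mul_comm]
      apply mul_le_mul_of_nonneg_right _ (by positivity)
      exact pow_le_pow_left₀ (norm_nonneg _) (gw _ _) 2
    have s1 := Real.sqrt_le_sqrt v1
    have s2 := Real.sqrt_le_sqrt v2
    refine (mul_le_mul s1 s2 (Real.sqrt_nonneg _) (Real.sqrt_nonneg _)).trans (le_of_eq ?_)
    have hRi : (0 : ℝ) ≤ 1 / R := by positivity
    have p1 : (0 : ℝ) ≤ 8 * C + L := by positivity
    have p2 : (0 : ℝ) ≤ 4 * K + L := by positivity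
    have q1 : √((1 / (R : ℝ)) * (8 * C + L) * ∑ c ∈ Ioc C (2 * C), ‖α c‖ ^ 2) =
        √(1 / (R : ℝ)) * √(8 * C + L) * √(∑ c ∈ Ioc C (2 * C), ‖α c‖ ^ 2) := by
      rw [Real.sqrt_mul (mul_nonneg hRi p1), Real.sqrt_mul hRi]
    have q2 : √((1 / (R : ℝ)) * (4 * K + L) * ((w h) ^ 2 * ∑ k ∈ Ioc 0 K, ‖β k‖ ^ 2)) =
        √(1 / (R : ℝ)) * √(4 * K + L) * (w h * √(∑ k ∈ Ioc 0 K, ‖β k‖ ^ 2)) := by
      rw [Real.sqrt_mul (mul_nonneg hRi p2), Real.sqrt_mul hRi, Real.sqrt_mul (sq_nonneg (w h)),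
        Real.sqrt_sq (w0 h)]
    rw [q1, q2, Real.sqrt_mul p1]
    have e1 : √(1 / (R : ℝ)) * √(1 / (R : ℝ)) = 1 / R := Real.mul_self_sqrt hRi
    calc _ = (√(1 / (R : ℝ)) * √(1 / (R : ℝ))) * (w h * (√(8 * C + L) * √(4 * K + L)
        * √(∑ c ∈ Ioc C (2 * C), ‖α c‖ ^ 2) * √(∑ k ∈ Ioc 0 K, ‖β k‖ ^ 2))) := by ring
      _ = _ := by rw [e1]; ring
  calc _ ≤ ∑ l ∈ P, ∑ h ∈ range (2 * C + 1),
        √(Vr (Ioc C (2 * C)) (a h) l) * √(Vr (Ioc 0 K) (b h) l) := Finset.sum_le_sum one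
    _ = ∑ h ∈ range (2 * C + 1), ∑ l ∈ P,
        √(Vr (Ioc C (2 * C)) (a h) l) * √(Vr (Ioc 0 K) (b h) l) := Finset.sum_comm
    _ ≤ ∑ h ∈ range (2 * C + 1), w h * ((1 / (R : ℝ)) * √((8 * C + L) * (4 * K + L))
        * √(∑ c ∈ Ioc C (2 * C), ‖α c‖ ^ 2) * √(∑ k ∈ Ioc 0 K, ‖β k‖ ^ 2)) :=
        Finset.sum_le_sum two
    _ = (∑ h ∈ range (2 * C + 1), w h) * ((1 / (R : ℝ)) * √((8 * C + L) * (4 * K + L))
        * √(∑ c ∈ Ioc C (2 * C), ‖α c‖ ^ 2) * √(∑ k ∈ Ioc 0 K, ‖β k‖ ^ 2)) := by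
        rw [Finset.sum_mul]
    _ ≤ (8 + 4 * Real.log (2 * C + 1)) * ((1 / (R : ℝ)) * √((8 * C + L) * (4 * K + L))
        * √(∑ c ∈ Ioc C (2 * C), ‖α c‖ ^ 2) * √(∑ k ∈ Ioc 0 K, ‖β k‖ ^ 2)) := by
        apply mul_le_mul_of_nonneg_right _ (by positivity)
        have := wsum
        push_cast at this
        exact this
    _ = _ := by ring

end Pool.Agent.EWG.H29
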